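import Pool.Agent.H25Z.Split.Ana

set_option autoImplicit false

namespace Pool.Agent.Results.MP_18dddc_an.AllOrders

open Pool.Agent.H25Z.Split

/-- For every `N ≥ 1` there is a splitting method of order at least `N` all of whose
coefficients `α_j`, `β_j` have positive real part. -/
theorem result : ∀ N : ℕ, 1 ≤ N → ∃ (k : ℕ) (α β : Fin k → ℂ), 1 ≤ k ∧
    (∀ j, 0 < (α j).re) ∧ (∀ j, 0 < (β j).re) ∧
    IsSplittingMethod N (List.ofFn fun j => (α j, β j)) := by
  intro N _
  obtain ⟨l, h1, h2, h3⟩ := all_orders N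
  refine ⟨l.length, fun j => (l.get j).1, fun j => (l.get j).2, List.length_pos_iff.2 h1,
    fun j => (h2 _ (List.get_mem l j)).1, fun j => (h2 _ (List.get_mem l j)).2, ?_⟩
  have e : (List.ofFn fun j => ((l.get j).1, (l.get j).2)) = l := List.ofFn_get l
  rw [e]
  exact h3

end Pool.Agent.Results.MP_18dddc_an.AllOrders
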